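import Pool.Agent.REV.StmtsP3

set_option autoImplicit false

/-!
# Squad REV (MP_bbfd73_gt): row PIN (integrability and positivity of V, W)
-/

namespace Pool.Agent.REV.H98

open Set MeasureTheory Filter
open scoped Topology

/-- row PIN -/
theorem pin : Pool.Agent.REV.PinStmt := by
  intro M U hU k hk
  have hnn : ∀ τ : ℝ, 0 ≤ k ^ 2 + τ ^ 2 := fun τ => by positivity
  have hsq : ∀ τ : ℝ, Real.sqrt (k ^ 2 + τ ^ 2) ^ 2 = k ^ 2 + τ ^ 2 := fun τ =>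
    Real.sq_sqrt (hnn τ)
  have hc : Continuous (fun τ : ℝ => U (Real.sqrt (k ^ 2 + τ ^ 2))) := by
    refine hU.cont.comp_continuous (by fun_prop) (fun τ => ?_)
    exact mem_Ici.2 (Real.sqrt_nonneg _)
  have hpos : ∀ τ : ℝ, 0 < U (Real.sqrt (k ^ 2 + τ ^ 2)) := fun τ =>
    hU.pos _ (Real.sqrt_nonneg _)
  have hM : 0 < M := by
    have h1 := hU.pos 0 le_rfl
    have h2 := hU.le 0 le_rfl
    norm_num at h2
    linarith
  have hle : ∀ τ : ℝ, U (Real.sqrt (k ^ 2 + τ ^ 2)) ≤ M * ((1 + τ ^ 2) ^ 2)⁻¹ := by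
    intro τ
    have h1 := hU.le _ (Real.sqrt_nonneg (k ^ 2 + τ ^ 2))
    rw [hsq] at h1
    refine h1.trans (mul_le_mul_of_nonneg_left ?_ hM.le)
    have h3 : (1 + τ ^ 2) ^ 2 ≤ (1 + (k ^ 2 + τ ^ 2)) ^ 2 := by
      have : 0 ≤ k ^ 2 := sq_nonneg k
      have : 0 ≤ τ ^ 2 := sq_nonneg τ
      gcongr
      linarith
    exact inv_anti₀ (by positivity) h3
  have e1 : ∀ τ : ℝ, ((1 + τ ^ 2) ^ 2)⁻¹ ≤ (1 + τ ^ 2)⁻¹ := by
    intro τ
    refine inv_anti₀ (by positivity) ?_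
    nlinarith [sq_nonneg τ, sq_nonneg (τ ^ 2)]
  have e2 : ∀ τ : ℝ, τ ^ 2 * ((1 + τ ^ 2) ^ 2)⁻¹ ≤ (1 + τ ^ 2)⁻¹ := by
    intro τ
    have h0 : 0 < 1 + τ ^ 2 := by positivity
    have : (1 + τ ^ 2)⁻¹ = (1 + τ ^ 2) * ((1 + τ ^ 2) ^ 2)⁻¹ := by
      field_simp
    rw [this]
    refine mul_le_mul_of_nonneg_right ?_ (by positivity)
    linarith
  have hint : Integrable (fun τ : ℝ => M * (1 + τ ^ 2)⁻¹) := integrable_inv_one_add_sq.const_mul M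
  have hi1 : Integrable (fun τ : ℝ => U (Real.sqrt (k ^ 2 + τ ^ 2))) := by
    refine hint.mono' hc.aestronglyMeasurable (Eventually.of_forall fun τ => ?_)
    rw [Real.norm_eq_abs, abs_of_pos (hpos τ)]
    exact (hle τ).trans (mul_le_mul_of_nonneg_left (e1 τ) hM.le)
  have hi2 : Integrable (fun τ : ℝ => τ ^ 2 * U (Real.sqrt (k ^ 2 + τ ^ 2))) := by
    refine hint.mono' ((continuous_pow 2).mul hc).aestronglyMeasurable
      (Eventually.of_forall fun τ => ?_)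
    have h0 : 0 ≤ τ ^ 2 * U (Real.sqrt (k ^ 2 + τ ^ 2)) := mul_nonneg (sq_nonneg τ) (hpos τ).le
    rw [Real.norm_eq_abs, abs_of_nonneg h0]
    calc τ ^ 2 * U (Real.sqrt (k ^ 2 + τ ^ 2)) ≤ τ ^ 2 * (M * ((1 + τ ^ 2) ^ 2)⁻¹) :=
          mul_le_mul_of_nonneg_left (hle τ) (sq_nonneg τ)
      _ = M * (τ ^ 2 * ((1 + τ ^ 2) ^ 2)⁻¹) := by ring
      _ ≤ M * (1 + τ ^ 2)⁻¹ := mul_le_mul_of_nonneg_left (e2 τ) hM.le
  refine ⟨hi1.integrableOn, hi2.integrableOn, ?_, ?_⟩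
  · unfold vV
    rw [setIntegral_pos_iff_support_of_nonneg_ae
      (Eventually.of_forall fun τ => (hpos τ).le) hi1.integrableOn]
    have hs : Ioi (0 : ℝ) ⊆ Function.support (fun τ : ℝ => U (Real.sqrt (k ^ 2 + τ ^ 2))) ∩ Ioi 0 :=
      fun τ hτ => ⟨(hpos τ).ne', hτ⟩
    refine lt_of_lt_of_le ?_ (measure_mono hs)
    simp
  · unfold wW
    rw [setIntegral_pos_iff_support_of_nonneg_ae
      (Eventually.of_forall fun τ => mul_nonneg (sq_nonneg τ) (hpos τ).le) hi2.integrableOn]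
    have hs : Ioi (0 : ℝ) ⊆
        Function.support (fun τ : ℝ => τ ^ 2 * U (Real.sqrt (k ^ 2 + τ ^ 2))) ∩ Ioi 0 :=
      fun τ hτ => ⟨(mul_pos (pow_pos (mem_Ioi.1 hτ) 2) (hpos τ)).ne', hτ⟩
    refine lt_of_lt_of_le ?_ (measure_mono hs)
    simp

end Pool.Agent.REV.H98
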