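import Pool.Agent.REV.StmtsA2

/-! REV, part A2, row RBS. -/

set_option autoImplicit false

namespace Pool.Agent.REV.H98

open Set MeasureTheory
open Pool.Agent.REV

theorem rbs (int : IntStmt) (pwi : PwiStmt) : RbsStmt := by
  intro n α β M c f hn hα0 hα1 hβ0 hβ hM hf hS hc0 hc1
  have hn' : (4 : ℝ) ≤ n := by exact_mod_cast hn
  obtain ⟨-, h2⟩ := int n f hn hf
  obtain ⟨-, hI, -, -⟩ := h2 c hc0.le hc1
  obtain ⟨hP, hPe⟩ := pwi.2 (1 / 4) (by norm_num) (by norm_num)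
  have hcα : 0 ≤ c ^ (-α) := Real.rpow_nonneg hc0.le _
  have hMc : 0 ≤ M * c ^ (-α) := mul_nonneg hM hcα
  have key : RB n f c ≤ ∫ r in (0 : ℝ)..1, (M * c ^ (-α)) * (r * (1 - r ^ 2) ^ (-(1 / 4) : ℝ)) := by
    refine intervalIntegral.integral_mono_on_of_le_Ioo zero_le_one hI (hP.const_mul _) ?_
    intro r hr
    have hr0 : 0 < r := hr.1
    have hr1 : r < 1 := hr.2
    have hrc0 : 0 < r * c := mul_pos hr0 hc0
    have hrc1 : r * c < 1 := by nlinarith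
    have hu0 : 0 < 1 - r ^ 2 := by nlinarith
    have hu1 : 1 - r ^ 2 ≤ 1 := by nlinarith
    have huv : 1 - r ^ 2 ≤ 1 - (r * c) ^ 2 := by
      have : (r * c) ^ 2 ≤ r ^ 2 := by
        have h3 : r * c ≤ r := by nlinarith
        exact pow_le_pow_left₀ hrc0.le h3 2
      linarith
    have h1 := hS (r * c) hrc0 hrc1
    have h2 : (r * c) ^ (-α) = r ^ (-α) * c ^ (-α) := Real.mul_rpow hr0.le hc0.le
    have h3 : (1 - (r * c) ^ 2) ^ (-β) ≤ (1 - r ^ 2) ^ (-β) :=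
      Real.rpow_le_rpow_of_nonpos hu0 huv (by linarith)
    have hw : 0 ≤ r ^ 2 * (1 - r ^ 2) ^ (((n : ℝ) - 4) / 2) :=
      mul_nonneg (sq_nonneg r) (Real.rpow_nonneg hu0.le _)
    have hrα : 0 ≤ r ^ (-α) := Real.rpow_nonneg hr0.le _
    have h4 : f (r * c) ≤ M * c ^ (-α) * (r ^ (-α) * (1 - r ^ 2) ^ (-β)) := by
      refine h1.trans ?_
      rw [h2]
      have h5 : M * (r ^ (-α) * c ^ (-α)) * (1 - (r * c) ^ 2) ^ (-β) ≤
          M * (r ^ (-α) * c ^ (-α)) * (1 - r ^ 2) ^ (-β) :=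
        mul_le_mul_of_nonneg_left h3 (mul_nonneg hM (mul_nonneg hrα hcα))
      refine h5.trans (le_of_eq ?_)
      ring
    have h6 : r ^ 2 * (1 - r ^ 2) ^ (((n : ℝ) - 4) / 2) * (r ^ (-α) * (1 - r ^ 2) ^ (-β)) ≤
        r * (1 - r ^ 2) ^ (-(1 / 4) : ℝ) := by
      have e1 : r ^ 2 * (1 - r ^ 2) ^ (((n : ℝ) - 4) / 2) * (r ^ (-α) * (1 - r ^ 2) ^ (-β)) =
          r ^ (2 - α) * (1 - r ^ 2) ^ (((n : ℝ) - 4) / 2 - β) := by
        have e2 : r ^ (2 - α) = r ^ 2 * r ^ (-α) := by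
          rw [sub_eq_add_neg, Real.rpow_add hr0]
          norm_num
        have e3 : (1 - r ^ 2) ^ (((n : ℝ) - 4) / 2 - β) =
            (1 - r ^ 2) ^ (((n : ℝ) - 4) / 2) * (1 - r ^ 2) ^ (-β) := by
          rw [← Real.rpow_add hu0, ← sub_eq_add_neg]
        rw [e2, e3]
        ring
      rw [e1]
      refine mul_le_mul ?_ ?_ (Real.rpow_nonneg hu0.le _) hr0.le
      · have := Real.rpow_le_rpow_of_exponent_ge hr0 hr1.le (show (1 : ℝ) ≤ 2 - α by linarith)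
        rwa [Real.rpow_one] at this
      · refine Real.rpow_le_rpow_of_exponent_ge hu0 hu1 ?_
        linarith
    calc r ^ 2 * (1 - r ^ 2) ^ (((n : ℝ) - 4) / 2) * f (r * c)
        ≤ r ^ 2 * (1 - r ^ 2) ^ (((n : ℝ) - 4) / 2) *
          (M * c ^ (-α) * (r ^ (-α) * (1 - r ^ 2) ^ (-β))) := mul_le_mul_of_nonneg_left h4 hw
      _ = M * c ^ (-α) * (r ^ 2 * (1 - r ^ 2) ^ (((n : ℝ) - 4) / 2) *
          (r ^ (-α) * (1 - r ^ 2) ^ (-β))) := by ring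
      _ ≤ M * c ^ (-α) * (r * (1 - r ^ 2) ^ (-(1 / 4) : ℝ)) := mul_le_mul_of_nonneg_left h6 hMc
  rw [intervalIntegral.integral_const_mul, hPe] at key
  have h7 : (1 : ℝ) / (2 * (1 - 1 / 4)) ≤ 1 := by norm_num
  calc RB n f c ≤ M * c ^ (-α) * (1 / (2 * (1 - 1 / 4))) := key
    _ ≤ M * c ^ (-α) * 1 := mul_le_mul_of_nonneg_left h7 hMc
    _ = M * c ^ (-α) := mul_one _

end Pool.Agent.REV.H98
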