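import Pool.Agent.REV.StmtsG3
import Pool.Agent.BPH.Sph

/-! REV, part G3, row G1Z: the interface `G1Stmt`. -/

set_option autoImplicit false

open MeasureTheory Module Set Filter
open scoped RealInnerProductSpace Pointwise Topology ENNReal

namespace Pool.Agent.REV.H98

open Pool.Agent.BPH Pool.Agent.Helper55_PB Pool.Agent.Helper28_PB Pool.Agent.REV

section

variable {E : Type} [NormedAddCommGroup E] [InnerProductSpace ℝ E] [FiniteDimensional ℝ E]

omit [FiniteDimensional ℝ E] in
theorem supp_iso {K : Set E} (T : E ≃ₗᵢ[ℝ] E) (h : T '' K = K) (w : E) :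
    supportFn K (T w) = supportFn K w := by
  unfold supportFn
  congr 1
  ext a
  constructor
  · rintro ⟨x, hx, rfl⟩
    rw [← h] at hx
    obtain ⟨y, hy, rfl⟩ := hx
    exact ⟨y, hy, (T.inner_map_map y w).symm⟩
  · rintro ⟨y, hy, rfl⟩
    refine ⟨T y, ?_, T.inner_map_map y w⟩
    rw [← h]
    exact ⟨y, hy, rfl⟩

omit [FiniteDimensional ℝ E] in
theorem supp_iso' {K : Set E} {e : E} (hR : RevB e K)
    (hev : ∀ w : E, supportFn K (-w) = supportFn K w) (T : E ≃ₗᵢ[ℝ] E)
    (hT : T e = e ∨ T e = -e) (w : E) : supportFn K (T w) = supportFn K w := by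
  rcases hT with hT | hT
  · exact supp_iso T (hR T hT) w
  · have h1 : (T.trans (LinearIsometryEquiv.neg ℝ)) e = e := by
      rw [LinearIsometryEquiv.trans_apply, hT]
      exact neg_neg e
    have h2 := supp_iso _ (hR _ h1) w
    rw [LinearIsometryEquiv.trans_apply] at h2
    rw [← h2]
    exact (hev (T w)).symm

omit [FiniteDimensional ℝ E] in
theorem abs_inner_le {e x : E} (he : ‖e‖ = 1) (hx : ‖x‖ = 1) : |⟪e, x⟫| ≤ 1 := by
  have := abs_real_inner_le_norm e x
  rwa [he, hx, mul_one] at this

variable [MeasurableSpace E] [BorelSpace E] [Nontrivial E]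

theorem zon_ae {e : E} (he : ‖e‖ = 1) (φ : ℝ → ℝ) :
    zon e φ =ᵐ[sph E] fun x => φ |⟪e, x⟫| := by
  filter_upwards [sph_facts.norm (E := E)] with x hx
  unfold zon
  rw [min_eq_left (abs_inner_le he hx)]

omit [FiniteDimensional ℝ E] [Nontrivial E] in
theorem zon_meas {e : E} (he : ‖e‖ = 1) {φ : ℝ → ℝ} (hφ : Measurable fun x : E => φ |⟪e, x⟫|) :
    Measurable (zon e φ) := by
  have h1 : Measurable fun s : ℝ => φ |s| := by
    have h2 : Measurable fun s : ℝ => s • e := by fun_prop
    have h3 := hφ.comp h2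
    have h4 : ((fun x : E => φ |⟪e, x⟫|) ∘ fun s : ℝ => s • e) = fun s : ℝ => φ |s| := by
      funext s
      change φ |⟪e, s • e⟫| = φ |s|
      rw [real_inner_smul_right, real_inner_self_eq_norm_sq, he]
      norm_num
    rwa [h4] at h3
  have h5 : zon e φ = fun x => (fun s : ℝ => φ |s|) (min |⟪e, x⟫| 1) := by
    funext x
    unfold zon
    have h7 : |min |(⟪e, x⟫ : ℝ)| 1| = min |(⟪e, x⟫ : ℝ)| 1 :=
      abs_of_nonneg (le_min (abs_nonneg _) zero_le_one)
    exact (congrArg φ h7).symm
  rw [h5]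
  refine h1.comp ?_
  have h6 : Measurable fun x : E => ⟪e, x⟫ :=
    (continuous_const.inner continuous_id).measurable
  exact (h6.abs).min measurable_const

omit [FiniteDimensional ℝ E] [MeasurableSpace E] [BorelSpace E] [Nontrivial E] in
theorem supp_pos {K : Set E} (hK : CC K) (h0 : (0 : E) ∈ interior K) {u : E} (hu : ‖u‖ = 1) :
    0 < supportFn K u := by
  obtain ⟨ρ, hρ, hb⟩ := Metric.isOpen_iff.1 isOpen_interior 0 h0
  have hb' : Metric.closedBall (0 : E) (ρ / 2) ⊆ K :=
    (Metric.closedBall_subset_ball (by linarith)).trans (hb.trans interior_subset)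
  have := le_supportFn_of_ball hK.cpt (by linarith : (0 : ℝ) ≤ ρ / 2) hb' u
  rw [hu, mul_one] at this
  linarith

end

theorem g1z (ave : AveStmt) : G1zStmt := by
  intro E _ _ _ _ _ _ K hK h0 hZ e he hR hev δ hδ hδ1
  have hpr : IsProbabilityMeasure (sph E) := sph_facts.prob
  by_cases hn : 2 ≤ finrank ℝ E
  · obtain ⟨C, hC, h⟩ := ave K hn hK h0 hZ e he fun T hT w => supp_iso' hR hev T hT w
    obtain ⟨φ, t, hD, ht, h1, h2, h3⟩ := h δ hδ hδ1
    have hae := zon_ae he φ
    refine ⟨φ, t, ⟨zon_meas he hD.meas, fun x => h1 _, ⟨_, fun x => h2 _⟩, ?_⟩, ht, ?_⟩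
    · rw [integral_congr_ae hae]
      exact hD.int
    · intro w
      have h4 : hz (zon e φ) w = hz (fun x : E => φ |⟪e, x⟫|) w := by
        unfold hz
        refine integral_congr_ae ?_
        filter_upwards [hae] with x hx
        rw [hx]
      rw [h4]
      exact h3 w
  · have hn1 : finrank ℝ E = 1 := by
      have : 0 < finrank ℝ E := finrank_pos
      omega
    have he0 : e ≠ 0 := by
      intro h
      rw [h, norm_zero] at he
      exact zero_ne_one he
    have hspan : ∀ w : E, ∃ a : ℝ, w = a • e := by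
      intro w
      obtain ⟨a, ha⟩ := (finrank_eq_one_iff_of_nonzero' e he0).1 hn1 w
      exact ⟨a, ha.symm⟩
    have hone : zon e (fun _ => (1 : ℝ)) = fun _ : E => (1 : ℝ) := rfl
    have hD : Dens (zon e (fun _ => (1 : ℝ))) := by
      rw [hone]
      exact Dens.one sph_facts
    have hz1 : ∀ a : ℝ, hz (fun _ : E => (1 : ℝ)) (a • e) = |a| := by
      intro a
      unfold hz
      have h1 : (fun x : E => |⟪a • e, x⟫| * 1) =ᵐ[sph E] fun _ => |a| := by
        filter_upwards [sph_facts.norm (E := E)] with x hx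
        obtain ⟨b, rfl⟩ := hspan x
        rw [norm_smul, he, mul_one, Real.norm_eq_abs] at hx
        rw [real_inner_smul_left, real_inner_smul_right, real_inner_self_eq_norm_sq, he]
        rw [one_pow, mul_one, mul_one, abs_mul, hx, mul_one]
      rw [integral_congr_ae h1]
      rw [integral_const, probReal_univ, one_smul]
    refine ⟨fun _ => 1, supportFn K e, hD, supp_pos hK h0 he, ?_⟩
    intro w
    obtain ⟨a, rfl⟩ := hspan w
    rw [hone, hz1]
    have hs : supportFn K (a • e) = supportFn K e * |a| := by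
      rcases le_total 0 a with ha | ha
      · rw [supportFn_smul hK.cpt hK.ne ha, abs_of_nonneg ha, mul_comm]
      · have h1 : a • e = -((-a) • e) := by rw [neg_smul, neg_neg]
        rw [h1, hev, supportFn_smul hK.cpt hK.ne (by linarith), abs_of_nonpos ha, mul_comm]
    have hp : 0 ≤ supportFn K e * |a| := mul_nonneg (supp_pos hK h0 he).le (abs_nonneg a)
    rw [hs]
    constructor
    · have h1 : Real.exp (-δ) ≤ 1 := Real.exp_le_one_iff.2 (by linarith)
      nlinarith
    · have h1 : 1 ≤ Real.exp δ := Real.one_le_exp hδ.le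
      nlinarith

end Pool.Agent.REV.H98
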